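import Pool.Agent.H82.AutConj.Sparse

set_option autoImplicit false

namespace Pool.Agent.Results.MP_61102a_co.FewCycles

open Pool.Agent.H82.AutConj

/-- See the claim file. -/
theorem result :
    (∀ (P : Type) [Finite P] [Nonempty P] [PartialOrder P],
      ((SimpleGraph.hasse P).Connected ∨ Dismantlable P) →
      (Nat.card (P ≃o P) : ℝ) / (Nat.card (P →o P) : ℝ) ≤
        2 ^ (((SimpleGraph.hasse P).edgeSet.ncard : ℝ) + 2 - Nat.card P
          - (Nat.card P : ℝ) / (4 * Real.logb 2 (Nat.card P)))) ∧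
    (∀ (P : Type) [Finite P] [Nonempty P] [PartialOrder P],
      Dismantlable P → (∀ x y z : P, x < y → ¬ y < z) →
      (Nat.card (P ≃o P) : ℝ) / (Nat.card (P →o P) : ℝ) ≤
        2 ^ (1 - (Nat.card P : ℝ) / (4 * Real.logb 2 (Nat.card P)))) := by
  refine ⟨fun P _ _ _ h => ?_, fun P _ _ _ h h3 => ratio_height_two h h3⟩
  rcases h with h | h
  · exact ratio_sparse h
  · exact ratio_sparse h.connected

end Pool.Agent.Results.MP_61102a_co.FewCycles
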