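import Pool.Agent.H82.AutConj.Base

set_option autoImplicit false

namespace Pool.Agent.Results.MP_61102a_co.PeelingBound

open Pool.Agent.H82.AutConj

theorem limit (δ : ℝ) (hδ : 0 < δ) (ε : ℝ) (hε : 0 < ε) :
    ∃ N : ℕ, ∀ (P : Type) [Finite P] [Nontrivial P] [PartialOrder P], N ≤ Nat.card P →
      ((SimpleGraph.hasse P).Connected ∨ Dismantlable P) →
      ∀ (r : ℕ) (S : ℕ → Set P) (B : Set P), Peeling P r S →
        (∀ g : P ≃o P, (∀ x, x ∉ S r → g x = x) → (∀ x ∈ B, g x = x) → ∀ x, g x = x) →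
        (1 + Real.logb 2 (Nat.card P)) ^ r ≤ (Nat.card P : ℝ) ^ (1 - δ) →
        (B.ncard : ℝ) ≤ (1 / 2 - δ) * (Nat.card P / Real.logb 2 (Nat.card P)) →
        (Nat.card (P ≃o P) : ℝ) / (Nat.card (P →o P) : ℝ) < ε := by
  have h1 : Filter.Tendsto (fun n : ℕ => δ * ((n : ℝ) ^ δ)) Filter.atTop Filter.atTop :=
    ((tendsto_rpow_atTop hδ).comp tendsto_natCast_atTop_atTop).const_mul_atTop hδ
  have h2 := h1.eventually_ge_atTop (|Real.logb 2 ε| + 1)
  obtain ⟨N, hN⟩ := Filter.eventually_atTop.1 h2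
  refine ⟨N, ?_⟩
  intro P _ _ _ hn hcd r S B hS hB hr hb
  have hc : (SimpleGraph.hasse P).Connected := by
    rcases hcd with h | h
    · exact h
    · exact h.connected
  have hn2 : 2 ≤ Nat.card P := Finite.one_lt_card_iff_nontrivial.2 ‹_›
  have hnR : (2 : ℝ) ≤ (Nat.card P : ℝ) := by exact_mod_cast hn2
  have hN' := hN _ hn
  refine lt_of_le_of_lt (hS.base hc B hB) ?_
  have hlog : 1 ≤ Real.logb 2 (Nat.card P : ℝ) := by
    rw [Real.le_logb_iff_rpow_le (by norm_num) (by linarith)]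
    simpa using hnR
  have hpow : 0 < (1 + Real.logb 2 (Nat.card P : ℝ)) ^ r := by positivity
  have hkey : |Real.logb 2 ε| + 1 ≤ ((Nat.card P : ℝ) / 2 - (B.ncard : ℝ) *
      Real.logb 2 (Nat.card P)) / (1 + Real.logb 2 (Nat.card P)) ^ r := by
    rw [le_div_iff₀ hpow]
    have hnpos : (0 : ℝ) < Nat.card P := by linarith
    have hsplit : (Nat.card P : ℝ) ^ (1 - δ) * (Nat.card P : ℝ) ^ δ = Nat.card P := by
      rw [← Real.rpow_add hnpos]
      simp
    have hpos : 0 < (Nat.card P : ℝ) ^ (1 - δ) := by positivity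
    have habs : 0 ≤ |Real.logb 2 ε| := abs_nonneg _
    have hbl : (B.ncard : ℝ) * Real.logb 2 (Nat.card P) ≤ (1 / 2 - δ) * Nat.card P := by
      calc (B.ncard : ℝ) * Real.logb 2 (Nat.card P)
          ≤ ((1 / 2 - δ) * (Nat.card P / Real.logb 2 (Nat.card P))) * Real.logb 2 (Nat.card P) :=
            mul_le_mul_of_nonneg_right hb (by linarith)
        _ = (1 / 2 - δ) * Nat.card P := by
            field_simp
    calc (|Real.logb 2 ε| + 1) * (1 + Real.logb 2 (Nat.card P : ℝ)) ^ r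
        ≤ (δ * (Nat.card P : ℝ) ^ δ) * (Nat.card P : ℝ) ^ (1 - δ) :=
          mul_le_mul hN' hr hpow.le (by positivity)
      _ = δ * ((Nat.card P : ℝ) ^ (1 - δ) * (Nat.card P : ℝ) ^ δ) := by ring
      _ = δ * Nat.card P := by rw [hsplit]
      _ ≤ (Nat.card P : ℝ) / 2 - (B.ncard : ℝ) * Real.logb 2 (Nat.card P) := by linarith
  calc (2 : ℝ) ^ (-(((Nat.card P : ℝ) / 2 - (B.ncard : ℝ) * Real.logb 2 (Nat.card P)) /
        (1 + Real.logb 2 (Nat.card P)) ^ r))
      ≤ 2 ^ (-(|Real.logb 2 ε| + 1)) :=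
        Real.rpow_le_rpow_of_exponent_le (by norm_num) (neg_le_neg hkey)
    _ < 2 ^ (Real.logb 2 ε) := by
        apply Real.rpow_lt_rpow_of_exponent_lt (by norm_num)
        have := neg_abs_le (Real.logb 2 ε)
        linarith
    _ = ε := Real.rpow_logb (by norm_num) (by norm_num) hε

/-- See the claim file. -/
theorem result :
    (∀ (P : Type) [Finite P] [PartialOrder P],
      2 ^ (max (DownIrr (Set.univ : Set P)).ncard (UpIrr (Set.univ : Set P)).ncard) *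
        Nat.card (P ≃o P) ≤ Nat.card (P →o P)) ∧
    (∀ (P : Type) [Finite P] [PartialOrder P] (r : ℕ) (S : ℕ → Set P), Peeling P r S →
      (Nat.card (P ≃o P) : ℝ) / (Nat.card (P →o P) : ℝ) ≤
        2 ^ (-(((Nat.card P : ℝ) - (S r).ncard) /
          ∑ j ∈ Finset.range r, (1 + Real.logb 2 (Nat.card P)) ^ j))) ∧
    (∀ (P : Type) [Finite P] [PartialOrder P] (r : ℕ),
      ((∃ t : P, ∀ x, x ≤ t) ∨ (∃ t : P, ∀ x, t ≤ x)) →
      (∀ c : Set P, IsChain (· ≤ ·) c → c.ncard ≤ r + 1) →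
      (Nat.card (P ≃o P) : ℝ) / (Nat.card (P →o P) : ℝ) ≤
        2 ^ (-(((Nat.card P : ℝ) - 1) /
          ∑ j ∈ Finset.range r, (1 + Real.logb 2 (Nat.card P)) ^ j))) ∧
    (∀ δ : ℝ, 0 < δ → ∀ ε : ℝ, 0 < ε → ∃ N : ℕ,
      ∀ (P : Type) [Finite P] [Nontrivial P] [PartialOrder P], N ≤ Nat.card P →
      ((SimpleGraph.hasse P).Connected ∨ Dismantlable P) →
      ∀ (r : ℕ) (S : ℕ → Set P) (B : Set P), Peeling P r S →
        (∀ g : P ≃o P, (∀ x, x ∉ S r → g x = x) → (∀ x ∈ B, g x = x) → ∀ x, g x = x) →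
        (1 + Real.logb 2 (Nat.card P)) ^ r ≤ (Nat.card P : ℝ) ^ (1 - δ) →
        (B.ncard : ℝ) ≤ (1 / 2 - δ) * (Nat.card P / Real.logb 2 (Nat.card P)) →
        (Nat.card (P ≃o P) : ℝ) / (Nat.card (P →o P) : ℝ) < ε) := by
  refine ⟨?_, ?_, ?_, limit⟩
  · intro P _ _
    rcases max_choice (DownIrr (Set.univ : Set P)).ncard (UpIrr (Set.univ : Set P)).ncard with h | h
    · rw [h]; exact one_round_down
    · rw [h]; exact one_round_up
  · intro P _ _ r S hS
    have h := hS.ratio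
    have h1 : ((S r)ᶜ.ncard : ℝ) = (Nat.card P : ℝ) - (S r).ncard := by
      rw [Set.ncard_compl, Nat.cast_sub]
      simpa [Set.ncard_univ] using Set.ncard_le_ncard (Set.subset_univ (S r))
    rwa [h1] at h
  · intro P _ _ r h hc
    rcases h with ⟨t, ht⟩ | ⟨t, ht⟩
    · exact ratio_top t ht r hc
    · exact ratio_bot t ht r hc

end Pool.Agent.Results.MP_61102a_co.PeelingBound
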