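import Pool.Agent.H82.AutConj.Sup

set_option autoImplicit false

namespace Pool.Agent.Results.MP_61102a_co.SemilatticeRate

open Pool.Agent.H82.AutConj

/-- See the claim file. -/
theorem result :
    (∀ (P : Type) [Finite P] [Nonempty P] [PartialOrder P],
      (Nat.card (P ≃o P) : ℝ) / (Nat.card (P →o P) : ℝ) ≤
        2 ^ (1 + ((NonSup P).ncard : ℝ) -
          ((Nat.card P : ℝ) - 1 - (NonSup P).ncard) / Real.logb 2 (Nat.card P))) ∧
    (∀ (P : Type) [Finite P] [Nonempty P] [PartialOrder P],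
      ((∀ x y : P, ∃ z, IsGLB {x, y} z) ∨ (∀ x y : P, ∃ z, IsLUB {x, y} z)) →
      (Nat.card (P ≃o P) : ℝ) / (Nat.card (P →o P) : ℝ) ≤
        2 ^ (1 - ((Nat.card P : ℝ) - 1) / Real.logb 2 (Nat.card P))) := by
  refine ⟨fun P _ _ _ => ratio_sup, fun P _ _ _ h => ?_⟩
  rcases h with h | h
  · exact ratio_meet h
  · exact ratio_join h

end Pool.Agent.Results.MP_61102a_co.SemilatticeRate
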